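import Pool.Agent.X20.Tr.Int
import Pool.Agent.Results.MP_f5d5f4_nt.EveryFibre

/-!
# Congruences of the curves `y² = x³ + a x + h ± ⌊α n ^ c⌋` with smaller or slightly larger curves

From Mathlib: `dimH E`: the Hausdorff dimension; `⌊x⌋₊`: the integer part; `Finset.Icc 1 N`: the integers from `1` to
`N`; `𝓝 1`: the neighbourhoods of `1`. From the team's `EveryFibre` (its definitions are used as they are):
`disc A B = 4 A ^ 3 + 27 B ^ 2`; `height A B`: the height `max (4 |A| ^ 3) (27 B ^ 2)` of `y² = x³ + A x + B`;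
`IsTwist A B A' B'`: the two curves are quadratic twists of each other; `Congruent n A B A' B'`: their `n`-torsion groups
are isomorphic as Galois modules; `NoCompanion δ A B`: for no `n ≥ 2` the curve `y² = x³ + A x + B` is congruent modulo `n`
to a curve of height at most `height A B ^ (1 + δ)` which is not a twist of it.
-/

set_option autoImplicit false

namespace Pool.Agent.Results.MP_f5d5f4_nt.EveryFibreAlongDilatedPowers

open Finset Filter Topology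
open Pool.Agent.X20.Tr
open Pool.Agent.Results.MP_f5d5f4_nt.EveryFibre (disc height IsTwist Congruent NoCompanion)

/-- the curve `y² = x³ + a x + t` is an elliptic curve without a companion -/
def Good (a : ℤ) (δ : ℝ) (t : ℤ) : Prop := disc a t ≠ 0 ∧ NoCompanion δ a t

lemma height_pos (a t : ℤ) (ha : a ≠ 0) : (1 : ℝ) ≤ (height a t : ℝ) := by
  have h1 : (1 : ℤ) ≤ |a| := Int.one_le_abs ha
  have h2 : (1 : ℤ) ≤ |a| ^ 3 := one_le_pow₀ h1
  have h3 : (1 : ℤ) ≤ height a t := by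
    unfold height
    exact le_trans (by linarith) (le_max_left _ _)
  exact_mod_cast h3

lemma mono {a : ℤ} (ha : a ≠ 0) {δ δ' : ℝ} (h : δ ≤ δ') {t : ℤ} (hG : Good a δ' t) : Good a δ t := by
  refine ⟨hG.1, fun A' B' h1 h2 h3 n hn => hG.2 A' B' h1 h2 (h3.trans ?_) n hn⟩
  exact Real.rpow_le_rpow_of_exponent_le (height_pos a t ha) (by linarith)

open Classical in
/-- the exceptions have density zero -/
lemma dens (a : ℤ) (ha : a ≠ 0) (δ : ℝ) (h₀ : 0 < δ) (h : 11 * δ < 1) :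
    Tendsto (fun X : ℕ => (((Icc (-(X : ℤ)) X).filter (fun t => ¬ Good a δ t)).card : ℝ) / X) atTop (𝓝 0) := by
  have h1 := EveryFibre.result a ha δ h₀ h
  have hfull : ∀ T : ℕ, ({t | |t| ≤ (T : ℤ)} : Set ℤ) = ((Icc (-(T : ℤ)) T : Finset ℤ) : Set ℤ) := by
    intro T
    ext t
    rw [coe_Icc]
    exact _root_.abs_le (a := t) (b := (T : ℤ))
  have hgood : ∀ T : ℕ, ({t | |t| ≤ (T : ℤ) ∧ disc a t ≠ 0 ∧ NoCompanion δ a t} : Set ℤ) =
      (((Icc (-(T : ℤ)) T).filter (fun t => Good a δ t) : Finset ℤ) : Set ℤ) := by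
    intro T
    ext t
    rw [coe_filter]
    show (|t| ≤ (T : ℤ) ∧ _) ↔ (t ∈ Icc (-(T : ℤ)) T ∧ _)
    rw [mem_Icc, _root_.abs_le]
    rfl
  have hcard : ∀ T : ℕ, ((Icc (-(T : ℤ)) T).card : ℝ) = 2 * T + 1 := by
    intro T
    rw [Int.card_Icc]
    have : ((T : ℤ) + 1 - -(T : ℤ)).toNat = 2 * T + 1 := by omega
    rw [this]
    push_cast
    ring
  have h2 : Tendsto (fun T : ℕ => (((Icc (-(T : ℤ)) T).filter (fun t => Good a δ t)).card : ℝ) / (2 * T + 1)) atTop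
      (𝓝 1) := by
    refine h1.congr fun T => ?_
    rw [hfull, hgood, Set.ncard_coe_finset, Set.ncard_coe_finset, hcard]
  have h3 : Tendsto (fun T : ℕ => (((Icc (-(T : ℤ)) T).filter (fun t => ¬ Good a δ t)).card : ℝ) / (2 * T + 1)) atTop
      (𝓝 0) := by
    have h4 := (tendsto_const_nhds (x := (1 : ℝ))).sub h2
    rw [sub_self] at h4
    refine h4.congr fun T => ?_
    have h5 := card_filter_add_card_filter_not (s := Icc (-(T : ℤ)) T) (fun t => Good a δ t)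
    have h6 : (((Icc (-(T : ℤ)) T).filter (fun t => Good a δ t)).card : ℝ) +
        (((Icc (-(T : ℤ)) T).filter (fun t => ¬ Good a δ t)).card : ℝ) = 2 * T + 1 := by
      rw [← hcard]
      exact_mod_cast h5
    have h7 : (2 * (T : ℝ) + 1) ≠ 0 := by positivity
    rw [eq_div_iff h7, sub_mul, div_mul_cancel₀ _ h7]
    linarith
  have h4 := h3.const_mul 3
  rw [mul_zero] at h4
  refine squeeze_zero' (Eventually.of_forall fun X => by positivity) ?_ h4
  filter_upwards [eventually_ge_atTop 1] with X hX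
  have hX1 : (1 : ℝ) ≤ X := by exact_mod_cast hX
  rw [mul_div_assoc', div_le_div_iff₀ (by linarith) (by linarith)]
  have h8 : (0 : ℝ) ≤ (((Icc (-(X : ℤ)) X).filter (fun t => ¬ Good a δ t)).card : ℝ) := Nat.cast_nonneg _
  nlinarith

open Classical in
/-- For every real `c > 1` there are `κ > 0` and a set `E` of real numbers of Hausdorff dimension at most `1 - κ`
such that for every real `α > 0` outside `E`, for ALL integers `a ≠ 0`, `h`, both signs `s` and all `0 < δ < 1 / 11`: for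
100% of the positive integers `n` the curve `y² = x³ + a x + t`, `t = h + s ⌊α n ^ c⌋`, is an elliptic curve, and for no
`m ≥ 2` it is congruent modulo `m` to a curve of height at most its height to the power `1 + δ` which is not a twist of
it. -/
theorem result (c : ℝ) (hc : 1 < c) : ∃ κ : ℝ, 0 < κ ∧ κ < 1 ∧ ∃ E : Set ℝ, dimH E ≤ ENNReal.ofReal (1 - κ) ∧
    ∀ α : ℝ, 0 < α → α ∉ E → ∀ a : ℤ, a ≠ 0 → ∀ δ : ℝ, 0 < δ → 11 * δ < 1 → ∀ h s : ℤ, (s = 1 ∨ s = -1) →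
      Tendsto (fun N : ℕ => (((Icc 1 N).filter
        (fun n : ℕ => disc a (h + s * ((⌊α * (n : ℝ) ^ c⌋₊ : ℕ) : ℤ)) ≠ 0 ∧
          NoCompanion δ a (h + s * ((⌊α * (n : ℝ) ^ c⌋₊ : ℕ) : ℤ)))).card : ℝ) / N) atTop (𝓝 1) := by
  obtain ⟨κ, hκ0, hκ1, H⟩ := sparse_int c hc
  obtain ⟨E, hE, hh⟩ := H (ℤ × ℚ) (fun i k => ¬ Good i.1 (i.2 : ℝ) k)
  refine ⟨κ, hκ0, hκ1, E, hE, fun α hα hαE a ha δ hδ hδ1 h s hs => ?_⟩
  obtain ⟨q, hq1, hq2⟩ := exists_rat_btwn (by linarith : δ < 1 / 11)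
  have h0 := (hh α hα hαE (a, q) h s hs).2 (by
    refine (dens a ha q (by linarith) (by linarith)).congr fun X => ?_
    exact congrArg (fun x : ℕ => (x : ℝ) / X) (card_filt' _ fun _ => Iff.rfl))
  have h1 : Tendsto (fun N : ℕ => (((Icc 1 N).filter
      (fun n : ℕ => ¬ Good a (q : ℝ) (h + s * ((⌊α * (n : ℝ) ^ c⌋₊ : ℕ) : ℤ)))).card : ℝ) / N) atTop (𝓝 0) := by
    refine h0.congr fun N => ?_
    exact congrArg (fun x : ℕ => (x : ℝ) / N) (card_filt' _ fun _ => Iff.rfl)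
  have h2 := (tendsto_const_nhds (x := (1 : ℝ))).sub h1
  rw [sub_zero] at h2
  refine tendsto_of_tendsto_of_tendsto_of_le_of_le' h2 (tendsto_const_nhds (x := (1 : ℝ))) ?_ ?_
  · filter_upwards [eventually_ge_atTop 1] with N hN
    have hN0 : (0 : ℝ) < N := by exact_mod_cast hN
    have h3 := card_filter_add_card_filter_not (s := Icc 1 N)
      (fun n : ℕ => Good a (q : ℝ) (h + s * ((⌊α * (n : ℝ) ^ c⌋₊ : ℕ) : ℤ)))
    rw [Nat.card_Icc, Nat.add_sub_cancel] at h3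
    have h5 : ((Icc 1 N).filter (fun n : ℕ => Good a (q : ℝ) (h + s * ((⌊α * (n : ℝ) ^ c⌋₊ : ℕ) : ℤ)))).card ≤
        ((Icc 1 N).filter (fun n : ℕ => disc a (h + s * ((⌊α * (n : ℝ) ^ c⌋₊ : ℕ) : ℤ)) ≠ 0 ∧
          NoCompanion δ a (h + s * ((⌊α * (n : ℝ) ^ c⌋₊ : ℕ) : ℤ)))).card := by
      apply card_le_card
      intro n hn
      rw [mem_filter] at hn ⊢
      exact ⟨hn.1, mono ha hq1.le hn.2⟩
    have h4 : (N : ℝ) ≤ (((Icc 1 N).filter (fun n : ℕ => disc a (h + s * ((⌊α * (n : ℝ) ^ c⌋₊ : ℕ) : ℤ)) ≠ 0 ∧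
          NoCompanion δ a (h + s * ((⌊α * (n : ℝ) ^ c⌋₊ : ℕ) : ℤ)))).card : ℝ) +
        (((Icc 1 N).filter (fun n : ℕ => ¬ Good a (q : ℝ) (h + s * ((⌊α * (n : ℝ) ^ c⌋₊ : ℕ) : ℤ)))).card : ℝ) := by
      have : N ≤ ((Icc 1 N).filter (fun n : ℕ => disc a (h + s * ((⌊α * (n : ℝ) ^ c⌋₊ : ℕ) : ℤ)) ≠ 0 ∧
          NoCompanion δ a (h + s * ((⌊α * (n : ℝ) ^ c⌋₊ : ℕ) : ℤ)))).card +
        ((Icc 1 N).filter (fun n : ℕ => ¬ Good a (q : ℝ) (h + s * ((⌊α * (n : ℝ) ^ c⌋₊ : ℕ) : ℤ)))).card := by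
        omega
      exact_mod_cast this
    rw [le_div_iff₀ hN0, sub_mul, div_mul_cancel₀ _ hN0.ne']
    linarith
  · filter_upwards with N
    apply div_le_one_of_le₀ _ (Nat.cast_nonneg _)
    have h3 := card_filter_le (Icc 1 N) (fun n : ℕ => disc a (h + s * ((⌊α * (n : ℝ) ^ c⌋₊ : ℕ) : ℤ)) ≠ 0 ∧
          NoCompanion δ a (h + s * ((⌊α * (n : ℝ) ^ c⌋₊ : ℕ) : ℤ)))
    rw [Nat.card_Icc, Nat.add_sub_cancel] at h3
    exact_mod_cast h3

end Pool.Agent.Results.MP_f5d5f4_nt.EveryFibreAlongDilatedPowers
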