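import Pool.Agent.Y673.FM.Fam

/-!
# MP_f5d5f4_nt: few congruences in families at integral parameters, uniformly in the curve and in the field

Let `K` be a number field and `j = F/G` ANY rational function over `K` with at least one finite pole
(`F`, `G` coprime, `G` nonconstant).  Let `a, n ≥ 1` and `ε > 0`.  There are `N`, `C` such that for EVERY
extension `L` of `K` of degree at most `n` over `ℚ`, EVERY elliptic curve `E₀` over `L` and every `X ≥ 1`:
among the `a`-integral `t ∈ L` (`a ^ k t` is an algebraic integer for some `k`) of height at most `X` there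
are at most `C (X H(j(E₀))) ^ ε` for which some elliptic curve `E` over `L` with `j(E) = F(t)/G(t)` and some
prime `p ≥ N` exist such that `E` and `E₀` have the same `p`-division field, in particular such that `E[p]`
and `E₀[p]` are isomorphic Galois modules.

The theorem `UniformInFamilies` of the starting files concerns all `t ∈ L` and needs that `j` has two different
poles on the projective line.  Its statement is not known to hold for families with one pole (after a change
of the parameter `j` is a polynomial in `1/t`), for which the method gives nothing about rational parameters;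
here it is shown that one pole suffices for the integral parameters, for example for `j = 1728 + 1/t`.

Proof.  If `π` is a finite pole of `j`, of order `m`, then at all places of `L(π)` outside a fixed finite set and
outside the poles of `j(E₀)` the valuation of `t - π` is nonnegative, because `t` is integral, and if it is
positive, `v(j(E)) = - m v(t - π)`; so it is divisible by `p` by the local theorem `Pool.Agent.Y673.FM.loc` on
curves with the same `p`-division field (`p` may be divisible by `v`).  The number of such elements `t - π` of
bounded height is bounded uniformly in the field (Rankin's method with the uniform counts of ideals and units).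

Authors of the counting and of the local theorem: helper673 (`Pool.Agent.Y673`), helper222 and team (`UABC`).
-/

set_option autoImplicit false

open WeierstrassCurve NumberField Polynomial
open scoped Classical

namespace Pool.Agent.Results.MP_f5d5f4_nt.IntegralParameters

section
variable {L : Type} [Field L]

/-- The curve `y² = x³ + Ax + B` over `L`. -/
def curve (A B : L) : WeierstrassCurve L := ⟨0, 0, 0, A, B⟩

/-- The group of its points over the algebraic closure of `L`. -/
abbrev Points (A B : L) : Type := ((curve A B).baseChange (AlgebraicClosure L)).toAffine.Point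

/-- The action of an `L`-automorphism `σ` of the algebraic closure on the points. -/
noncomputable def galois (A B : L) (σ : AlgebraicClosure L ≃ₐ[L] AlgebraicClosure L) :
    Points A B →+ Points A B :=
  WeierstrassCurve.Affine.Point.map (σ : AlgebraicClosure L →ₐ[L] AlgebraicClosure L)

/-- The curves `y² = x³ + Ax + B` and `y² = x³ + A'x + B'` have the same `p`-division field: an
automorphism fixes all points killed by `p` of the first if and only if it fixes all points killed by
`p` of the second.  This holds if there is an isomorphism (or only a bijective map) between the groups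
of points killed by `p` which commutes with the Galois action. -/
def SameDivisionField (p : ℕ) (A B A' B' : L) : Prop :=
  ∀ σ : AlgebraicClosure L ≃ₐ[L] AlgebraicClosure L,
    (∀ P : Points A B, p • P = 0 → galois A B σ P = P) ↔
      (∀ P : Points A' B', p • P = 0 → galois A' B' σ P = P)

/-- The invariant of `y² = x³ + Ax + B`. -/
noncomputable def jInvariant (A B : L) : L := 6912 * A ^ 3 / (4 * A ^ 3 + 27 * B ^ 2)

/-- `j` is the invariant of an elliptic curve over `L` which for some prime `p ≥ N` has the same
`p`-division field as `y² = x³ + A₀x + B₀`. -/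
def Companion (N : ℕ) (A₀ B₀ : L) (j : L) : Prop :=
  ∃ A B : L, 4 * A ^ 3 + 27 * B ^ 2 ≠ 0 ∧ jInvariant A B = j ∧
    ∃ p : ℕ, p.Prime ∧ N ≤ p ∧ SameDivisionField p A B A₀ B₀

/-- `t` is `a`-integral: only primes dividing `a` occur in its denominator. -/
def IntegralAway (a : ℕ) (t : L) : Prop := ∃ k : ℕ, IsIntegral ℤ ((a : L) ^ k * t)

end

/-- The `a`-integral parameters `t ∈ L` of height at most `X`, `G(t) ≠ 0`, such that `F(t)/G(t)` is the
invariant of an elliptic curve over `L` which for some prime `p ≥ N` has the same `p`-division field as
`y² = x³ + A₀x + B₀`. -/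
def Exceptional (K : Type) [Field K] (F G : K[X]) (L : Type) [Field L] [NumberField L]
    [Algebra K L] (a N : ℕ) (A₀ B₀ : L) (X : ℝ) : Set L :=
  {t | IntegralAway a t ∧ Height.mulHeight₁ t ≤ X ∧ (G.map (algebraMap K L)).eval t ≠ 0 ∧
    Companion N A₀ B₀ ((F.map (algebraMap K L)).eval t / (G.map (algebraMap K L)).eval t)}

/-- **Few congruences at integral parameters, for all families with a finite pole, uniformly over all curves
`E₀` and all fields of bounded degree.** -/
theorem result (K : Type) [Field K] [NumberField K] (F G : K[X]) (hFG : IsCoprime F G)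
    (hG : 0 < G.natDegree) (a : ℕ) (ha : 0 < a) (n : ℕ) (ε : ℝ) (hε : 0 < ε) :
    ∃ (N : ℕ) (C : ℝ), ∀ (L : Type) [Field L] [NumberField L] [Algebra K L],
      Module.finrank ℚ L ≤ n → ∀ A₀ B₀ : L, 4 * A₀ ^ 3 + 27 * B₀ ^ 2 ≠ 0 → ∀ X : ℝ, 1 ≤ X →
        (Exceptional K F G L a N A₀ B₀ X).Finite ∧
        ((Exceptional K F G L a N A₀ B₀ X).ncard : ℝ) ≤
          C * (X * Height.mulHeight₁ (jInvariant A₀ B₀)) ^ ε := by
  have key : ∀ (L : Type) [Field L] [NumberField L] (N : ℕ) (A₀ B₀ j : L),
      Module.finrank ℚ L ≤ n → 4 * A₀ ^ 3 + 27 * B₀ ^ 2 ≠ 0 → 13 + 8 * n ≤ N →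
      Companion N A₀ B₀ j → Pool.Agent.Y673.DK.PJ L 6 (jInvariant A₀ B₀) N j := by
    rintro L _ _ N A₀ B₀ j hL h0 hN ⟨A, B, h1, rfl, p, h3, h4, h5⟩
    exact Pool.Agent.Y673.FM.pj_of hL hN A B A₀ B₀ h1 h0 h3 h4 h5
  obtain ⟨N, C, -, h⟩ := Pool.Agent.Y673.DK.integral_mainJ K 6 (by norm_num) F G hFG hG a ha n hε
  refine ⟨max N (13 + 8 * n), C, fun L _ _ _ hL A₀ B₀ h0 X hX => ?_⟩
  refine Pool.Agent.Y673.Cnt.ncard_le_of _ _ fun E hE =>
    h L hL (jInvariant A₀ B₀) X hX E fun t ht => ?_
  obtain ⟨h2, h3, h4, h5⟩ := hE (Finset.mem_coe.2 ht)
  obtain ⟨p, h6, h7, h8⟩ := key L _ A₀ B₀ _ hL h0 (le_max_right _ _) h5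
  exact ⟨h2, h3, h4, p, h6, (le_max_left _ _).trans h7, h8⟩

end Pool.Agent.Results.MP_f5d5f4_nt.IntegralParameters
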