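import Pool.Agent.TH894.NJ7
import Pool.Agent.TH894.NJ10

/-!
# MP_f5d5f4_nt: almost no member of a one-parameter family at integers with few changed digits is congruent to a curve with smooth conductor, over any number field of small degree

Let `E_t : y² = x³ + A(t)x + B(t)` be a one-parameter family over `ℚ` with an `I₁` fibre (`4A³ + 27B²` has an irreducible factor
of multiplicity one).  Take any integer `N` with `K` digits in base `b`, prescribe for every position a new digit, choose `r` of the
positions and put the new digits there, which gives the number `t`.  For all but a proportion `ε` of the choices `E_t` is an elliptic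
curve, and NO elliptic curve `E'` over `ℚ`, of whatever height, all of whose primes of bad reduction are at most `exp (c r)`, is
congruent to `E_t`: `E_t[n]` and `E'[n]` are not isomorphic as Galois modules for any `n ≥ 2`, and for **all** number fields `L` they
are not even isomorphic as modules over the Galois group of `L`, if `n` has a prime factor `l ≥ 3`, `l > [L : ℚ]`.

In particular almost no `E_t` is congruent to any of the curves of conductor at most `exp (c r)`; the numbers `t` run through a very
thin set of integers: `N` may have arbitrarily many digits `K` while the number `r` of the changed digits is bounded, and the numbers `t`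
are then only `K.choose r ≤ K ^ r` of the `b ^ K` integers below `b ^ K`.

The theorem `FewDigitFamilies` of the starting files is about pairs of a curve `E_t` and a curve of a second family `F_s`; here the
second curve is arbitrary, subject only to the condition on its bad primes, and only one number `t` is chosen.

Proof.  For almost all choices two primes `q₁, q₂ > exp (c r)`, `q_i ≥ 5`, divide `4A(t)³ + 27B(t)²` exactly once (Mertens' theorem for the
roots of the factor of the discriminant and the second moment over the choices: `Pool.Agent.TH894.NJ.two_family`).  If `E'` has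
good reduction at `q ∈ {q₁, q₂}`, `q ≠ l`, the inertia group at `q` acts trivially on `E'[l]` and by unipotent automorphisms, not
trivially, on `E_t[l]`; so some `σ` has order `l` on `E_t[l]` and acts trivially on `E'[l]`, and a power `σ ^ j`, `0 < j < l`, fixes `L`.
-/

set_option autoImplicit false

namespace Pool.Agent.Results.MP_f5d5f4_nt.SmoothConductorsFewDigits

open Finset Polynomial
open scoped Classical

/-- The curve `y² = x³ + Ax + B` over `ℚ`. -/
def curve (A B : ℤ) : WeierstrassCurve ℚ := ⟨0, 0, 0, A, B⟩

/-- The group of its points over the algebraic closure of `ℚ`. -/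
abbrev Points (A B : ℤ) : Type := ((curve A B).baseChange (AlgebraicClosure ℚ)).toAffine.Point

/-- The action of an automorphism `σ` of the algebraic closure on the points. -/
noncomputable def galois (A B : ℤ) (σ : AlgebraicClosure ℚ ≃ₐ[ℚ] AlgebraicClosure ℚ) :
    Points A B →+ Points A B :=
  WeierstrassCurve.Affine.Point.map
    (σ : AlgebraicClosure ℚ →ₐ[ℚ] AlgebraicClosure ℚ)

/-- The `n`-torsion of `y² = x³ + Ax + B` and that of `y² = x³ + A'x + B'` are isomorphic as modules over the Galois group of the
field `L`: some map between the groups of points restricts to a bijective additive map of the `n`-torsion which commutes with all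
automorphisms of the algebraic closure which fix `L`. -/
def CongruentOver (L : IntermediateField ℚ (AlgebraicClosure ℚ)) (n : ℕ) (A B A' B' : ℤ) : Prop :=
  ∃ f : Points A B → Points A' B', (∀ P Q, n • P = 0 → n • Q = 0 → f (P + Q) = f P + f Q) ∧
    Set.BijOn f {P | n • P = 0} {Q | n • Q = 0} ∧
    ∀ σ ∈ L.fixingSubgroup, ∀ P : Points A B, n • P = 0 → f (galois A B σ P) = galois A' B' σ (f P)

/-- The discriminant, up to the factor `-16`. -/
def disc (A B : ℤ) : ℤ := 4 * A ^ 3 + 27 * B ^ 2

/-- The curves `y² = x³ + Ax + B` and `y² = x³ + A'x + B'` are isomorphic over `ℚ`. -/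
def IsModel (A B A' B' : ℤ) : Prop :=
  ∃ u : ℚ, u ≠ 0 ∧ (A' : ℚ) = u ^ 4 * A ∧ (B' : ℚ) = u ^ 6 * B

/-- `q ≥ 5` is a prime of bad reduction of `y² = x³ + Ax + B`: it divides the discriminant of every
integral equation `y² = x³ + A'x + B'` of the curve. -/
def BadPrime (A B : ℤ) (q : ℕ) : Prop :=
  q.Prime ∧ 5 ≤ q ∧ ∀ A' B' : ℤ, IsModel A B A' B' → (q : ℤ) ∣ disc A' B'

/-- `y² = x³ + Ax + B` is an elliptic curve which is not congruent, over `ℚ` modulo any `n ≥ 2`, and over any number field `L` modulo
any `n` with a prime factor `l ≥ 3`, `l > [L : ℚ]`, to any elliptic curve over `ℚ` all of whose bad primes are at most `y`. -/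
def NoSmoothCompanion (y : ℕ) (A B : ℤ) : Prop :=
  disc A B ≠ 0 ∧ ∀ A' B' : ℤ, disc A' B' ≠ 0 → (∀ q : ℕ, BadPrime A' B' q → q ≤ y) →
    (∀ n : ℕ, 2 ≤ n → ¬ CongruentOver ⊥ n A B A' B') ∧
    ∀ L : IntermediateField ℚ (AlgebraicClosure ℚ), FiniteDimensional ℚ L → ∀ l : ℕ, l.Prime → 3 ≤ l →
      Module.finrank ℚ L < l → ∀ n : ℕ, l ∣ n → ¬ CongruentOver L n A B A' B'

/-- The digit number `i` of `N` in base `b`. -/
def digit (b i N : ℕ) : ℕ := N / b ^ i % b

/-- The number which arises from the number `N` with at most `K` digits in base `b`, if for every `i ∈ S`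
the digit number `i` is replaced by `f i`. -/
def change (b K N : ℕ) (f : ℕ → ℕ) (S : Finset ℕ) : ℕ :=
  ∑ i ∈ range K, (if i ∈ S then f i else digit b i N) * b ^ i

/-- Two primes suffice. -/
lemma no_companion {y : ℕ} {A B : ℤ} (h : Pool.Agent.TH894.NJ.Two y A B) : NoSmoothCompanion y A B := by
  obtain ⟨q₁, q₂, hy, hlt, x1, x2⟩ := h
  refine ⟨Pool.Agent.TH894.NI.Ex_dsc_ne x1, fun A' B' h0' hb => ⟨?_, ?_⟩⟩
  · rintro n hn ⟨f, h1, h2, h3⟩
    have hT : Pool.Agent.W275.FM.TorIso n A B A' B' :=
      ⟨f, h1, h2, fun σ P hP => h3 σ (by rw [IntermediateField.fixingSubgroup_bot]; exact Subgroup.mem_top _) P hP⟩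
    have hbad : BadPrime A' B' q₁ := Pool.Agent.TH4.FZ.key_bad x1 hn h0' hT
    exact absurd (hb q₁ hbad) (not_le.2 hy)
  · intro L hL l hl hl3 hlL n hln hC
    by_cases hq : q₁ = l
    · have hbad : BadPrime A' B' q₂ := Pool.Agent.TH894.NJ.bad_of_iso x2 hl hl3 (by omega) hln L.fixingSubgroup
        (fun σ => Pool.Agent.TH894.NJ.pigeon L l hlL σ) hC
      exact absurd (hb q₂ hbad) (by omega)
    · have hbad : BadPrime A' B' q₁ := Pool.Agent.TH894.NJ.bad_of_iso x1 hl hl3 hq hln L.fixingSubgroup
        (fun σ => Pool.Agent.TH894.NJ.pigeon L l hlL σ) hC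
      exact absurd (hb q₁ hbad) (not_le.2 hy)

/-- **One-parameter families at integers with few changed digits: no congruences with curves with smooth conductor.**  Let
`A, B, P` be integer polynomials, `P` irreducible of positive degree, dividing `4A³ + 27B²` exactly once.  For all bases `b ≥ 2` and
all `ε > 0` there are `c > 0` and `y₀` such that for all `y ≥ y₀`, all `r ≥ log y / c`, `K ≥ 2r`, all `N` with at most `K` digits in
base `b` and all new digits `f`: for all but a proportion `ε` of the choices of `r` of the `K` positions, if `t` is the number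
obtained by changing the digits of `N` at the chosen positions, `E_t : y² = x³ + A(t)x + B(t)` is an elliptic curve and no elliptic
curve `E'` over `ℚ` with good reduction at all primes `q > y` (`q ≥ 5`) is congruent to `E_t`, over `ℚ` modulo any `n ≥ 2`, and over any
number field `L` modulo any `n` with a prime factor `l ≥ 3`, `l > [L : ℚ]`. -/
theorem result (A B P : ℤ[X]) (hP : Irreducible P) (hd : 0 < P.natDegree) (hPD : P ∣ 4 * A ^ 3 + 27 * B ^ 2)
    (hP2 : ¬ P ^ 2 ∣ 4 * A ^ 3 + 27 * B ^ 2) (b : ℕ) (hb : 2 ≤ b) (ε : ℝ) (hε : 0 < ε) :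
    ∃ c : ℝ, 0 < c ∧ ∃ y₀ : ℕ, ∀ y : ℕ, y₀ ≤ y → ∀ r K : ℕ, Real.log y ≤ c * r → 2 * r ≤ K →
      ∀ N : ℕ, N < b ^ K → ∀ f : ℕ → ℕ, (∀ j, f j < b ∧ f j ≠ digit b j N) →
        (((powersetCard r (range K)).filter (fun S =>
          ¬ NoSmoothCompanion y (A.eval (change b K N f S : ℤ)) (B.eval (change b K N f S : ℤ)))).card : ℝ) ≤
          ε * (K.choose r : ℝ) := by
  obtain ⟨c, hc, y₀, h⟩ := Pool.Agent.TH894.NJ.two_family b hb A B P hP hd hPD hP2 ε hε
  refine ⟨c, hc, y₀, fun y hy r K hr hrK N hN f hf => ?_⟩
  refine le_trans ?_ (h y hy r K hrK hr N hN f hf)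
  apply Nat.cast_le.2
  apply card_le_card
  intro S hS
  rw [mem_filter] at hS ⊢
  exact ⟨hS.1, fun hR => hS.2 (no_companion hR)⟩

end Pool.Agent.Results.MP_f5d5f4_nt.SmoothConductorsFewDigits
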