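import Pool.Agent.TH894.NJ10
import Pool.Agent.TH4.FZ.Thin

/-!
# MP_f5d5f4_nt: congruences do not lower the conductor, for almost all members of thin families

Let `E_t : y² = x³ + A(t)x + B(t)` be a one-parameter family over `ℚ` such that
`4A³ + 27B² = f₁ ⋯ f_r H` with pairwise coprime factors `f_i` of degree at most 2, `f₁ ⋯ f_r` squarefree and prime
to `H` (the fibres over the roots of the `f_i` are of type `I₁`).  For every `ε > 0` there is `C` such that for all
but a proportion `ε` of the integers `t` the following is true for ALL elliptic curves `E'` over `ℚ`, of whatever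
height:

* if `E'[n]` is isomorphic to `E_t[n]` for some `n ≥ 2` (for example for a prime `n = p`), the product of the primes
  `q ≥ 5` of bad reduction of `E'` is at least `|f₁(t) ⋯ f_r(t)| / C`;
* if `E'[n]` and `E_t[n]` are isomorphic only over some number field `L`, and `n` has a prime factor
  `l ≥ 3`, `l > [L : ℚ]`, this product is still at least `|f₁(t) ⋯ f_r(t)| / (C g)`, where `g` is the greatest
  common divisor of `l` and `4A(t)³ + 27B(t)²`.

So for almost all `t` no elliptic curve of conductor less than `|f₁(t) ⋯ f_r(t)| / C` is congruent to `E_t` modulo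
any `n`.  Examples: the universal curves with a rational point of order 5 (`f = t² - 11 t - 1`) or 6
(`f = 9 t + 1`), or `y² = x³ + t x + 2 s³` (`4 t³ + 108 s⁶ = 4 (t + 3 s²) (t² - 3 s² t + 9 s⁴)`) for a fixed `s ≠ 0`.
The starting files have such a theorem for the family of all curves (two parameters, ordered by height) only; the
families here have density zero in it.

Proof.  A prime `q ≥ 5`, `q ≠ l`, which divides `4A(t)³ + 27B(t)²` exactly once is a prime of bad reduction of every
congruent curve (starting files `W275/FM`, `W275/FML`, `TH894/NJ`).  The product of these `q` is at least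
`|f₁(t) ⋯ f_r(t)| / C` for almost all `t` (`TH4/FZ/Thin`): large square divisors `q²` of the values of polynomials of
degree at most 2 are rare, and so are large powers of small primes.
-/

set_option autoImplicit false

open Filter Polynomial
open scoped Classical

namespace Pool.Agent.Results.MP_f5d5f4_nt.ThinFamilies

/-- The curve `y² = x³ + Ax + B` over `ℚ`. -/
def curve (A B : ℤ) : WeierstrassCurve ℚ := ⟨0, 0, 0, A, B⟩

/-- The group of its points over the algebraic closure of `ℚ`. -/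
abbrev Points (A B : ℤ) : Type := ((curve A B).baseChange (AlgebraicClosure ℚ)).toAffine.Point

/-- The action of an automorphism `σ` of the algebraic closure on the points. -/
noncomputable def galois (A B : ℤ) (σ : AlgebraicClosure ℚ ≃ₐ[ℚ] AlgebraicClosure ℚ) :
    Points A B →+ Points A B :=
  WeierstrassCurve.Affine.Point.map
    (σ : AlgebraicClosure ℚ →ₐ[ℚ] AlgebraicClosure ℚ)

/-- The `n`-torsion of `y² = x³ + Ax + B` and that of `y² = x³ + A'x + B'` are isomorphic as modules over the Galois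
group of the field `L`: some map between the groups of points restricts to a bijective additive map of the
`n`-torsion which commutes with all automorphisms of the algebraic closure which fix `L`. -/
def CongruentOver (L : IntermediateField ℚ (AlgebraicClosure ℚ)) (n : ℕ) (A B A' B' : ℤ) : Prop :=
  ∃ f : Points A B → Points A' B', (∀ P Q, n • P = 0 → n • Q = 0 → f (P + Q) = f P + f Q) ∧
    Set.BijOn f {P | n • P = 0} {Q | n • Q = 0} ∧
    ∀ σ ∈ L.fixingSubgroup, ∀ P : Points A B, n • P = 0 → f (galois A B σ P) = galois A' B' σ (f P)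

/-- The discriminant, up to the factor `-16`. -/
def disc (A B : ℤ) : ℤ := 4 * A ^ 3 + 27 * B ^ 2

/-- The curves `y² = x³ + Ax + B` and `y² = x³ + A'x + B'` are isomorphic over `ℚ`. -/
def IsModel (A B A' B' : ℤ) : Prop :=
  ∃ u : ℚ, u ≠ 0 ∧ (A' : ℚ) = u ^ 4 * A ∧ (B' : ℚ) = u ^ 6 * B

/-- `q ≥ 5` is a prime of bad reduction of `y² = x³ + Ax + B`: it divides the discriminant of every
integral equation `y² = x³ + A'x + B'` of the curve. -/
def BadPrime (A B : ℤ) (q : ℕ) : Prop :=
  q.Prime ∧ 5 ≤ q ∧ ∀ A' B' : ℤ, IsModel A B A' B' → (q : ℤ) ∣ disc A' B'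

/-- The product of the primes `q ≥ 5` of bad reduction (they divide `4A³ + 27B²`, and the product
divides the conductor). -/
noncomputable def badProduct (A B : ℤ) : ℕ :=
  ∏ q ∈ (disc A B).natAbs.primeFactors.filter (fun q => BadPrime A B q), q

/-- `E : y² = x³ + Ax + B` is an elliptic curve, and all elliptic curves `E'` over `ℚ` congruent to `E` modulo some
`n ≥ 2` have `badProduct ≥ P / C`; if `E'` is congruent to `E` over a number field `L` and `n` has a prime factor
`l ≥ 3`, `l > [L : ℚ]`, then `badProduct ≥ P / (C g)`, `g` the greatest common divisor of `l` and `4A³ + 27B²`. -/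
def Keeps (C P : ℕ) (A B : ℤ) : Prop :=
  disc A B ≠ 0 ∧ ∀ A' B' : ℤ, disc A' B' ≠ 0 →
    (∀ n : ℕ, 2 ≤ n → CongruentOver ⊥ n A B A' B' → P ≤ C * badProduct A' B') ∧
    ∀ L : IntermediateField ℚ (AlgebraicClosure ℚ), FiniteDimensional ℚ L →
      ∀ l : ℕ, l.Prime → 3 ≤ l → Module.finrank ℚ L < l → ∀ n : ℕ, l ∣ n → CongruentOver L n A B A' B' →
        P ≤ C * (Nat.gcd l (disc A B).natAbs * badProduct A' B')

open Pool.Agent.W275.FM Pool.Agent.TH4.FZ Pool.Agent.TH894.NJ in
/-- exact prime divisors different from `l` -/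
theorem part {A B A' B' : ℤ} {l n : ℕ} (hl : l.Prime) (hl3 : 3 ≤ l) (hln : l ∣ n)
    (G : Subgroup (Qb ≃ₐ[ℚ] Qb)) (hG : ∀ σ : Qb ≃ₐ[ℚ] Qb, ∃ j : ℕ, 0 < j ∧ j < l ∧ σ ^ j ∈ G)
    (h0 : dsc A' B' ≠ 0) (h : IsoG G n A B A' B') (S : Finset ℕ) (hEx : ∀ q ∈ S, Ex q A B) :
    ∏ q ∈ S, q ≤ Nat.gcd l (dsc A B).natAbs * badProd A' B' := by
  have h1 : ∏ q ∈ S.erase l, q ≤ badProd A' B' := by
    unfold badProd
    refine Finset.prod_le_prod_of_subset_of_one_le' ?_ ?_
    · intro q hq
      have hb := bad_of_iso (hEx q (Finset.mem_of_mem_erase hq)) hl hl3 (Finset.ne_of_mem_erase hq)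
        hln G hG h
      rw [Finset.mem_filter, Nat.mem_primeFactors]
      exact ⟨⟨hb.1, Int.natCast_dvd.1 (hb.2.2 A' B' (Mdl.self A' B')), Int.natAbs_ne_zero.2 h0⟩, hb⟩
    · intro q hq _
      exact (Nat.prime_of_mem_primeFactors (Finset.mem_filter.1 hq).1).one_lt.le
  by_cases hlS : l ∈ S
  · have h3 : Nat.gcd l (dsc A B).natAbs = l :=
      Nat.gcd_eq_left (Int.natCast_dvd.1 (hEx l hlS).2.2.1)
    rw [h3, ← Finset.mul_prod_erase S (fun q => q) hlS]
    exact Nat.mul_le_mul_left l h1
  · rw [Finset.erase_eq_of_notMem hlS] at h1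
    exact h1.trans (Nat.le_mul_of_pos_left _ (Nat.gcd_pos_of_pos_left _ hl.pos))

/-- **Congruences do not lower the conductor, for almost all members of a thin family.** -/
theorem result {r : ℕ} (A B H : ℤ[X]) (f : Fin r → ℤ[X]) (hdeg : ∀ i, (f i).natDegree ≤ 2)
    (hD : 4 * A ^ 3 + 27 * B ^ 2 = (∏ i, f i) * H) (h0 : 4 * A ^ 3 + 27 * B ^ 2 ≠ 0)
    (hsq : Squarefree ((∏ i, f i).map (Int.castRingHom ℚ)))
    (hcop : IsCoprime ((∏ i, f i).map (Int.castRingHom ℚ)) (H.map (Int.castRingHom ℚ)))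
    (ε : ℝ) (hε : 0 < ε) :
    ∃ C T₀ : ℕ, ∀ T : ℕ, T₀ ≤ T →
      (1 - ε) * (({t : ℤ | |t| ≤ (T : ℤ)}.ncard : ℕ) : ℝ) ≤
        (({t : ℤ | |t| ≤ (T : ℤ) ∧
          Keeps C (∏ i, (f i).eval t).natAbs (A.eval t) (B.eval t)}.ncard : ℕ) : ℝ) := by
  obtain ⟨C, hC⟩ := Pool.Agent.TH4.FZ.thin_core A B H f hdeg hD h0 hsq hcop ε hε
  obtain ⟨T₀, hT⟩ := hC.compl hε.le
  refine ⟨C, T₀, fun T hTT => (hT T hTT).trans ?_⟩
  apply Nat.cast_le.2
  apply Set.ncard_le_ncard _ ((Pool.Agent.TH4.FZ.ivl_finite T).subset fun t ht => ht.1)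
  rintro t ⟨ht1, ht2⟩
  refine ⟨ht1, ?_⟩
  rw [Set.mem_setOf_eq, not_not] at ht2
  obtain ⟨h1, S, h2, h3⟩ := ht2
  rw [eval_prod] at h3
  refine ⟨h1, fun A' B' h0' => ⟨fun n hn hi => h3.trans (Nat.mul_le_mul_left _
    (Pool.Agent.TH4.FZ.prod_le_bad hn h0' ?_ S h2)), fun L hL l hl hl3 hlL n hln hi =>
    h3.trans (Nat.mul_le_mul_left _ ?_)⟩⟩
  · obtain ⟨g, g1, g2, g3⟩ := hi
    exact ⟨g, g1, g2, fun σ P hP => g3 σ (by
      rw [IntermediateField.fixingSubgroup_bot]; exact Subgroup.mem_top σ) P hP⟩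
  · exact part hl hl3 hln L.fixingSubgroup (fun σ => Pool.Agent.TH894.NJ.pigeon L l hlL σ) h0' hi S h2

end Pool.Agent.Results.MP_f5d5f4_nt.ThinFamilies
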